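import Pool.Agent.Q292.LR.Main

/-!
# Percolation on `Z^d` with long bonds: approximation by models of finite range

`Z^(n+1) = Z × Z^n`, `n ≥ 1`. Sites are open with probability `a`, all nearest-neighbour bonds are
present; in addition, on the lines parallel to the first axis whose other coordinates are
multiples of `m`, a bond of length `k ≥ 2` is present with probability `1 - exp (-β k ^ (-s))`,
`1 < s < 2`, independently (`prob a 1 β s m`).

`theta n a 1 β s m` is the probability that the origin is in an infinite open cluster; `thetaK`,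
`acSK` are the percolation probability and the critical density when only the bonds of length at
most `K` are used (a finite-range model), `pcBK` the critical point of bond percolation.

* The percolating phase is open and its clusters do not need bonds of unbounded length.
* For all `ε` there are finite-range models whose critical density is within `ε` of that of
  `Z^(n+1)` and whose percolation probability at the critical point is at most `ε`; the same for
  bond percolation.

The proof uses the starting files `Pool.Agent.W783.Perc`; the openness is by helper292.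
-/

set_option autoImplicit false

namespace Pool.Agent.Results.MP_54f242_pr.BondsOfBoundedLength

open MeasureTheory Set Filter Pool.Agent.W783.PC
open scoped Topology

theorem result (n m : ℕ) (s : ℝ) (hn : 1 ≤ n) (hm : 1 ≤ m) (hs : 1 < s) (hs2 : s < 2) :
    (∀ (a : unitInterval) (β : NNReal), 0 < β → a < 1 → 0 < theta n a 1 β s m →
      ∃ (K : ℕ) (δ : ℝ), 0 < δ ∧ ∀ (a' : unitInterval) (β' : NNReal),
        |(a' : ℝ) - a| ≤ δ → |(β' : ℝ) - β| ≤ δ → 0 < thetaK n a' 1 β' s m K) ∧
    (∀ ε : ℝ, 0 < ε → ∃ β0 : NNReal, 0 < β0 ∧ ∀ β : NNReal, 0 < β → β ≤ β0 →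
      ∃ K0 : ℕ, ∀ K ≥ K0, |(acSK n m s β K : ℝ) - acZ n| ≤ ε ∧
        thetaK n (acSK n m s β K) 1 β s m K ≤ ε) ∧
    (∀ ε : ℝ, 0 < ε → ∃ β0 : NNReal, 0 < β0 ∧ ∀ β : NNReal, 0 < β → β ≤ β0 →
      ∃ K0 : ℕ, ∀ K ≥ K0, |(pcBK n m s β K : ℝ) - pcZ n| ≤ ε ∧
        thetaK n 1 (pcBK n m s β K) β s m K ≤ ε) := by
  refine ⟨?_, fun ε hε => site_finite hn hm hs hs2 hε, fun ε hε => bond_finite hn hm hs hs2 hε⟩
  intro a β hβ ha hθ
  exact Q292.LR.site_open hn hm hs hs2 hβ ha hθ

end Pool.Agent.Results.MP_54f242_pr.BondsOfBoundedLength
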