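import Pool.Agent.Q292.LR.Main

/-!
# Percolation on `Z^d` with weak and sparse long bonds: no infinite cluster at the critical point

`Z^(n+1) = Z × Z^n`, `n ≥ 1`. Sites are open with probability `a`, all nearest-neighbour bonds are
present; in addition, on the lines parallel to the first axis whose other coordinates are
multiples of `m`, a bond of length `k ≥ 2` is present with probability `1 - exp (-β k ^ (-s))`,
`1 < s < 2`, independently (`prob a 1 β s m`). For small `β` or large `m` there are few long bonds,
all of them in one direction.

`theta n a 1 β s m` is the probability that the origin is in an infinite open cluster, `acS n m s β`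
the critical density. For every `β > 0` there is no infinite cluster at the critical density, and
the percolation probability is continuous there, jointly in the density and in `β`. The same for
bond percolation (`pcB`): all sites open, nearest-neighbour bonds open with probability `p`.

The proof that there is no infinite cluster is the work of the authors of the starting files
`Pool.Agent.W783.Perc` and of the files they import; the joint continuity is by helper292.
-/

set_option autoImplicit false

namespace Pool.Agent.Results.MP_54f242_pr.CriticalDensityWithLongBonds

open MeasureTheory Set Filter Pool.Agent.W783.PC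
open scoped Topology

theorem result (n m : ℕ) (s : ℝ) (hn : 1 ≤ n) (hm : 1 ≤ m) (hs : 1 < s) (hs2 : s < 2) :
    (∀ β : NNReal, 0 < β →
      0 < acS n m s β ∧ acS n m s β < 1 ∧ theta n (acS n m s β) 1 β s m = 0 ∧
      ContinuousAt (fun x : unitInterval × NNReal => theta n x.1 1 x.2 s m) (acS n m s β, β)) ∧
    (∀ β : NNReal, 0 < β → 0 < pcB n m s β →
      pcB n m s β < 1 ∧ theta n 1 (pcB n m s β) β s m = 0) := by
  refine ⟨fun β hβ => ?_, (bond_main hn hm hs hs2).1⟩
  obtain ⟨h1, h2, h3⟩ := (site_main hn hm hs hs2).1 β hβ
  exact ⟨h1, h2, h3, Q292.LR.cont_of_zero hs (x := (acS n m s β, β)) h3⟩

end Pool.Agent.Results.MP_54f242_pr.CriticalDensityWithLongBonds
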