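import Pool.Agent.Q292.LR.Main

/-!
# Percolation on `Z^d` with long bonds: the limit of weak long bonds

`Z^(n+1) = Z × Z^n`, `n ≥ 1`. Sites are open with probability `a`, all nearest-neighbour bonds are
present; in addition, on the lines parallel to the first axis whose other coordinates are
multiples of `m`, a bond of length `k ≥ 2` is present with probability `1 - exp (-β k ^ (-s))`,
`1 < s < 2`, independently (`prob a 1 β s m`). For `β = 0` this is site percolation on `Z^(n+1)`
(`thetaZ n a 1`, critical density `acZ n`).

`theta n a 1 β s m` is the probability that the origin is in an infinite open cluster, `acS n m s β`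
the critical density.

* The critical densities and the percolation probabilities tend to those of `Z^(n+1)` as `β → 0`;
  the same for the critical points of bond percolation (`pcB`, `pcZ`).
* Site percolation on `Z^(n+1)` has no infinite cluster at its critical point if and only if the
  percolation probability of these models is continuous at the end point `β = 0` of the critical
  curve.

The proof of the limit of the critical points is the work of the authors of the starting files
`Pool.Agent.W783.Perc` and of the files they import; the rest is by helper292.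
-/

set_option autoImplicit false

namespace Pool.Agent.Results.MP_54f242_pr.WeakBondLimit

open MeasureTheory Set Filter Pool.Agent.W783.PC
open scoped Topology

theorem result (n m : ℕ) (s : ℝ) (hn : 1 ≤ n) (hm : 1 ≤ m) (hs : 1 < s) (hs2 : s < 2) :
    Tendsto (fun β : NNReal => (acS n m s β : ℝ)) (𝓝 0) (𝓝 (acZ n : ℝ)) ∧
    (∀ a : unitInterval,
      Tendsto (fun β : NNReal => theta n a 1 β s m) (𝓝 0) (𝓝 (thetaZ n a 1))) ∧
    (thetaZ n (acZ n) 1 = 0 ↔
      ContinuousAt (fun x : unitInterval × NNReal => theta n x.1 1 x.2 s m) (acZ n, 0)) ∧
    0 < pcZ n ∧ Tendsto (fun β : NNReal => (pcB n m s β : ℝ)) (𝓝 0) (𝓝 (pcZ n : ℝ)) := by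
  refine ⟨(site_main hn hm hs hs2).2, fun a => ?_, ?_, (bond_main hn hm hs hs2).2⟩
  · have h := Q292.LR.th_tendsto (n := n) (m := m) hs a 0
    have h0 : 𝓝[≥] (0 : NNReal) = 𝓝 0 := by
      have : (Set.Ici (0 : NNReal)) = Set.univ := by ext x; simp
      rw [this, nhdsWithin_univ]
    rw [h0] at h
    have h1 : Q292.LR.th n m s (a, 0) = thetaZ n a 1 := theta_zero_eq a 1 s m
    rw [h1] at h
    exact h
  · have h1 : Q292.LR.th n m s (acZ n, 0) = thetaZ n (acZ n) 1 := theta_zero_eq _ 1 s m
    have h2 := Q292.LR.cont_iff (n := n) (m := m) hs (β := 0)
    rw [acS_zero m s, h1] at h2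
    exact h2.symm

end Pool.Agent.Results.MP_54f242_pr.WeakBondLimit
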